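import Mathlib

set_option autoImplicit false

/-!
# MP_cfc379: `M(G) = Z(G)` fails for connected bipartite graphs with `|X| ≥ |Y|`, `X` cubic

`Y` is the set of the seven points of the Fano plane and `X` consists of nine copies of each of
its seven lines, every copy being joined to its three points.

* every zero forcing set misses at most eight vertices, because the complement of a line and a
  dual complement (four lines off a point), as well as two copies of the same line, are forts;
* every matrix of the graph has rank at least nine: if the rank were at most eight, every line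
  would have a copy with zero diagonal entry, so the matrix would contain a block matrix
  `[0 B; Bᵀ D]`, of rank at least `2 rank B`, where `B` is a real matrix with the zero pattern of
  the Fano plane; such a `B` has rank at least five.
-/

namespace Pool.Agent.Results.MP_cfc379_co.FanoBlowUp

open Matrix Module

/-! ### definitions -/

/-- The set `𝒮(G)` of real symmetric matrices whose off-diagonal nonzero pattern is `G`. -/
def MatricesOf {V : Type} [Fintype V] (G : SimpleGraph V) : Set (Matrix V V ℝ) :=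
  {A | A.IsSymm ∧ ∀ i j, i ≠ j → (A i j ≠ 0 ↔ G.Adj i j)}

/-- The maximum nullity `M(G)`. -/
noncomputable def maxNullity {V : Type} [Fintype V] (G : SimpleGraph V) : ℕ :=
  sSup {k : ℕ | ∃ A ∈ MatricesOf G, k = finrank ℝ (LinearMap.ker A.mulVecLin)}

/-- The vertices that are eventually filled when `B` is filled first. -/
inductive Filled {V : Type} (G : SimpleGraph V) (B : Set V) : V → Prop
  | init (v : V) : v ∈ B → Filled G B v
  | force (u w : V) : Filled G B u → G.Adj u w →
      (∀ w', G.Adj u w' → w' ≠ w → Filled G B w') → Filled G B w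

/-- The zero forcing number `Z(G)`. -/
noncomputable def zeroForcingNumber {V : Type} [Fintype V] (G : SimpleGraph V) : ℕ :=
  sInf {k : ℕ | ∃ B : Finset V, (∀ v, Filled G (B : Set V) v) ∧ k = B.card}

/-! ### forts -/

/-- A fort: no vertex outside has exactly one neighbour inside. -/
def IsFort {V : Type} (G : SimpleGraph V) (F : Set V) : Prop :=
  ∀ u, u ∉ F → ∀ w ∈ F, G.Adj u w → ∃ w' ∈ F, w' ≠ w ∧ G.Adj u w'

theorem fort_not_filled {V : Type} (G : SimpleGraph V) (B F : Set V) (hF : IsFort G F)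
    (hd : Disjoint B F) (v : V) (h : Filled G B v) : v ∉ F := by
  induction h with
  | init v hv => exact Set.disjoint_left.1 hd hv
  | force u w hu hadj hw' ih1 ih2 =>
    intro hwF
    obtain ⟨w', hw'F, hne, hadj'⟩ := hF u ih1 w hwF hadj
    exact ih2 w' hadj' hne hw'F

/-! ### the Fano plane -/

/-- the point `p` lies on the line `l = {l, l+1, l+3}` -/
def inc (l p : Fin 7) : Bool := decide (p = l) || decide (p = l + 1) || decide (p = l + 3)

/-- For at most two points there is a line containing them. -/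
theorem exists_line (P : Finset (Fin 7)) (hP : P.card ≤ 2) : ∃ l, ∀ p ∈ P, inc l p = true := by
  have key : ∀ p q : Fin 7, ∃ l, inc l p = true ∧ inc l q = true := by decide
  have h3 : P.card = 0 ∨ P.card = 1 ∨ P.card = 2 := by omega
  rcases h3 with h | h | h
  · rw [Finset.card_eq_zero] at h
    exact ⟨0, by simp [h]⟩
  · obtain ⟨p, rfl⟩ := Finset.card_eq_one.1 h
    obtain ⟨l, h1, _⟩ := key p p
    exact ⟨l, by simpa using h1⟩
  · obtain ⟨p, q, _, rfl⟩ := Finset.card_eq_two.1 h
    obtain ⟨l, h1, h2⟩ := key p q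
    exact ⟨l, by simp [h1, h2]⟩

theorem exists_point (L : Finset (Fin 7)) (hL : L.card ≤ 2) : ∃ p, ∀ l ∈ L, inc l p = true := by
  have key : ∀ l m : Fin 7, ∃ p, inc l p = true ∧ inc m p = true := by decide
  have h3 : L.card = 0 ∨ L.card = 1 ∨ L.card = 2 := by omega
  rcases h3 with h | h | h
  · rw [Finset.card_eq_zero] at h
    exact ⟨0, by simp [h]⟩
  · obtain ⟨p, rfl⟩ := Finset.card_eq_one.1 h
    obtain ⟨l, h1, _⟩ := key p p
    exact ⟨l, by simpa using h1⟩
  · obtain ⟨p, q, _, rfl⟩ := Finset.card_eq_two.1 h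
    obtain ⟨l, h1, h2⟩ := key p q
    exact ⟨l, by simp [h1, h2]⟩

theorem line_fort (l0 l p : Fin 7) (h1 : inc l0 p = false) (h2 : inc l p = true) :
    ∃ q, inc l0 q = false ∧ q ≠ p ∧ inc l q = true := by
  revert l0 l p
  decide

theorem point_fort (p0 p l : Fin 7) (h1 : inc l p0 = false) (h2 : inc l p = true) :
    ∃ m, inc m p0 = false ∧ m ≠ l ∧ inc m p = true := by
  revert p0 p l
  decide

/-! ### the graph -/

abbrev W : Type := (Fin 7 × Fin 9) ⊕ Fin 7

def adjB : W → W → Bool
  | Sum.inl x, Sum.inr p => inc x.1 p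
  | Sum.inr p, Sum.inl x => inc x.1 p
  | _, _ => false

def G : SimpleGraph W where
  Adj x y := adjB x y = true
  symm := ⟨fun x y h => by
    rcases x with x | x <;> rcases y with y | y <;> simp [adjB] at h ⊢ <;> exact h⟩
  loopless := ⟨fun x h => by rcases x with x | x <;> simp [adjB] at h⟩

theorem adj_lr (x : Fin 7 × Fin 9) (p : Fin 7) :
    G.Adj (Sum.inl x) (Sum.inr p) ↔ inc x.1 p = true := Iff.rfl

theorem adj_rl (x : Fin 7 × Fin 9) (p : Fin 7) :
    G.Adj (Sum.inr p) (Sum.inl x) ↔ inc x.1 p = true := Iff.rfl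

theorem not_adj_ll (x y : Fin 7 × Fin 9) : ¬ G.Adj (Sum.inl x) (Sum.inl y) := by
  intro h
  simp [G, adjB] at h

theorem not_adj_rr (x y : Fin 7) : ¬ G.Adj (Sum.inr x) (Sum.inr y) := by
  intro h
  simp [G, adjB] at h

theorem connected : G.Connected := by
  have h1 : ∀ p : Fin 7, G.Reachable (Sum.inr p) (Sum.inr 0) := by
    intro p
    have key : ∀ p : Fin 7, ∃ l, inc l p = true ∧ inc l 0 = true := by decide
    obtain ⟨l, hl1, hl2⟩ := key p
    have e1 : G.Adj (Sum.inr p) (Sum.inl (l, 0)) := (adj_rl _ _).2 hl1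
    have e2 : G.Adj (Sum.inl (l, 0)) (Sum.inr 0) := (adj_lr _ _).2 hl2
    exact e1.reachable.trans e2.reachable
  have h2 : ∀ v : W, G.Reachable v (Sum.inr 0) := by
    rintro (x | p)
    · have e1 : G.Adj (Sum.inl x) (Sum.inr x.1) := (adj_lr _ _).2 (by simp [inc])
      exact e1.reachable.trans (h1 _)
    · exact h1 p
  have : Nonempty W := ⟨Sum.inr 0⟩
  exact ⟨fun u v => (h2 u).trans (h2 v).symm⟩

/-! ### zero forcing sets are large -/

theorem fort_points (l0 : Fin 7) :
    IsFort G {v : W | ∃ p, v = Sum.inr p ∧ inc l0 p = false} := by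
  rintro (x | q) hu w ⟨p, rfl, hp⟩ hadj
  · obtain ⟨q, h1, h2, h3⟩ := line_fort l0 x.1 p hp ((adj_lr _ _).1 hadj)
    exact ⟨Sum.inr q, ⟨q, rfl, h1⟩, fun h => h2 (Sum.inr_injective h), (adj_lr _ _).2 h3⟩
  · exact absurd hadj (not_adj_rr _ _)

theorem fort_lines (p0 : Fin 7) (c : Fin 7 → Fin 9) :
    IsFort G {v : W | ∃ l, v = Sum.inl (l, c l) ∧ inc l p0 = false} := by
  rintro (x | q) hu w ⟨l, rfl, hl⟩ hadj
  · exact absurd hadj (not_adj_ll _ _)
  · obtain ⟨m, h1, h2, h3⟩ := point_fort p0 q l hl ((adj_rl _ _).1 hadj)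
    refine ⟨Sum.inl (m, c m), ⟨m, rfl, h1⟩, ?_, (adj_rl _ _).2 h3⟩
    intro h
    exact h2 (congrArg Prod.fst (Sum.inl_injective h))

theorem fort_copies (l : Fin 7) (c d : Fin 9) (hcd : c ≠ d) :
    IsFort G {v : W | v = Sum.inl (l, c) ∨ v = Sum.inl (l, d)} := by
  rintro (x | q) hu w hw hadj
  · rcases hw with rfl | rfl <;> exact absurd hadj (not_adj_ll _ _)
  · rcases hw with rfl | rfl
    · refine ⟨Sum.inl (l, d), Or.inr rfl, ?_, hadj⟩
      intro h
      exact hcd (congrArg Prod.snd (Sum.inl_injective h)).symm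
    · refine ⟨Sum.inl (l, c), Or.inl rfl, ?_, hadj⟩
      intro h
      exact hcd (congrArg Prod.snd (Sum.inl_injective h))

theorem card_W : Fintype.card W = 70 := by simp [W]

theorem forcing_large (B : Finset W) (hB : ∀ v, Filled G (B : Set W) v) : 62 ≤ B.card := by
  classical
  have hfort : ∀ F : Set W, IsFort G F → F.Nonempty → ∃ v ∈ F, v ∈ B := by
    intro F hF hne
    by_contra hcon
    push Not at hcon
    obtain ⟨v, hv⟩ := hne
    refine fort_not_filled G B F hF ?_ v (hB v) hv
    rw [Set.disjoint_left]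
    intro w hw1 hw2
    exact hcon w hw2 (Finset.mem_coe.1 hw1)
  -- unfilled vertices
  set U : Finset W := Bᶜ with hU
  have hR : U.toRight.card ≤ 4 := by
    by_contra hcon
    push Not at hcon
    have h1 : (U.toRight)ᶜ.card ≤ 2 := by
      rw [Finset.card_compl, Fintype.card_fin]
      omega
    obtain ⟨l0, hl0⟩ := exists_line _ h1
    obtain ⟨v, ⟨p, rfl, hp⟩, hvB⟩ := hfort _ (fort_points l0) (by
      have key : ∀ l0 : Fin 7, ∃ p, inc l0 p = false := by decide
      obtain ⟨p, hp⟩ := key l0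
      exact ⟨Sum.inr p, p, rfl, hp⟩)
    have h2 : p ∈ (U.toRight)ᶜ := by
      rw [Finset.mem_compl, Finset.mem_toRight, hU, Finset.mem_compl, not_not]
      exact hvB
    rw [hl0 p h2] at hp
    exact absurd hp (by simp)
  have hL : U.toLeft.card ≤ 4 := by
    -- at most one unfilled copy of every line
    have hinj : Set.InjOn Prod.fst (U.toLeft : Set (Fin 7 × Fin 9)) := by
      rintro ⟨l, c⟩ h1 ⟨m, d⟩ h2 h3
      simp only at h3
      subst h3
      by_contra hne
      have hcd : c ≠ d := fun h => hne (by rw [h])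
      obtain ⟨v, hv, hvB⟩ := hfort _ (fort_copies l c d hcd) ⟨_, Or.inl rfl⟩
      rw [Finset.mem_coe, Finset.mem_toLeft, hU, Finset.mem_compl] at h1 h2
      rcases hv with rfl | rfl
      · exact h1 hvB
      · exact h2 hvB
    rw [← Finset.card_image_of_injOn hinj]
    by_contra hcon
    push Not at hcon
    have h1 : (U.toLeft.image Prod.fst)ᶜ.card ≤ 2 := by
      rw [Finset.card_compl, Fintype.card_fin]
      omega
    obtain ⟨p0, hp0⟩ := exists_point _ h1
    have hc : ∀ l : Fin 7, inc l p0 = false → ∃ c, (l, c) ∈ U.toLeft := by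
      intro l hl
      have : l ∈ U.toLeft.image Prod.fst := by
        by_contra h2
        rw [hp0 l (Finset.mem_compl.2 h2)] at hl
        exact absurd hl (by simp)
      obtain ⟨⟨l', c⟩, h3, rfl⟩ := Finset.mem_image.1 this
      exact ⟨c, h3⟩
    choose! c hc using hc
    obtain ⟨v, ⟨l, rfl, hl⟩, hvB⟩ := hfort _ (fort_lines p0 c) (by
      have key : ∀ p0 : Fin 7, ∃ l, inc l p0 = false := by decide
      obtain ⟨l, hl⟩ := key p0
      exact ⟨Sum.inl (l, c l), l, rfl, hl⟩)
    have h2 := hc l hl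
    rw [Finset.mem_toLeft, hU, Finset.mem_compl] at h2
    exact h2 hvB
  have h1 := Finset.card_toLeft_add_card_toRight (u := U)
  have h2 : U.card = 70 - B.card := by rw [hU, Finset.card_compl, card_W]
  omega

/-! ### real matrices with the pattern of the Fano plane have rank at least five -/

theorem fano_rank (B : Matrix (Fin 7) (Fin 7) ℝ) (hB : ∀ l p, B l p ≠ 0 ↔ inc l p = true) :
    5 ≤ B.rank := by
  by_contra hcon
  push Not at hcon
  have hdim : 3 ≤ finrank ℝ (LinearMap.ker B.mulVecLin) := by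
    have h1 := LinearMap.finrank_range_add_finrank_ker B.mulVecLin
    rw [finrank_pi, Fintype.card_fin] at h1
    have h2 : finrank ℝ (LinearMap.range B.mulVecLin) = B.rank := rfl
    omega
  have hz : ∀ l p, inc l p = false → B l p = 0 := by
    intro l p h
    by_contra hne
    exact absurd ((hB l p).1 hne) (by simp [h])
  have hn : ∀ l p, inc l p = true → B l p ≠ 0 := fun l p h => (hB l p).2 h
  -- the seven line relations
  have rel : ∀ y : Fin 7 → ℝ, B.mulVecLin y = 0 →
      (B 0 0 * y 0 + B 0 1 * y 1 + B 0 3 * y 3 = 0 ∧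
      B 1 1 * y 1 + B 1 2 * y 2 + B 1 4 * y 4 = 0 ∧
      B 2 2 * y 2 + B 2 3 * y 3 + B 2 5 * y 5 = 0 ∧
      B 3 3 * y 3 + B 3 4 * y 4 + B 3 6 * y 6 = 0 ∧
      B 4 0 * y 0 + B 4 4 * y 4 + B 4 5 * y 5 = 0 ∧
      B 5 1 * y 1 + B 5 5 * y 5 + B 5 6 * y 6 = 0 ∧
      B 6 0 * y 0 + B 6 2 * y 2 + B 6 6 * y 6 = 0) := by
    intro y hy
    have h : ∀ l, ∑ p, B l p * y p = 0 := by
      intro l
      have := congrFun hy l
      simpa [Matrix.mulVec, dotProduct] using this
    have h0 := h 0
    have h1 := h 1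
    have h2 := h 2
    have h3 := h 3
    have h4 := h 4
    have h5 := h 5
    have h6 := h 6
    rw [Fin.sum_univ_seven] at h0 h1 h2 h3 h4 h5 h6
    rw [hz 0 2 (by decide), hz 0 4 (by decide), hz 0 5 (by decide), hz 0 6 (by decide)] at h0
    rw [hz 1 0 (by decide), hz 1 3 (by decide), hz 1 5 (by decide), hz 1 6 (by decide)] at h1
    rw [hz 2 0 (by decide), hz 2 1 (by decide), hz 2 4 (by decide), hz 2 6 (by decide)] at h2
    rw [hz 3 0 (by decide), hz 3 1 (by decide), hz 3 2 (by decide), hz 3 5 (by decide)] at h3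
    rw [hz 4 1 (by decide), hz 4 2 (by decide), hz 4 3 (by decide), hz 4 6 (by decide)] at h4
    rw [hz 5 0 (by decide), hz 5 2 (by decide), hz 5 3 (by decide), hz 5 4 (by decide)] at h5
    rw [hz 6 1 (by decide), hz 6 3 (by decide), hz 6 4 (by decide), hz 6 5 (by decide)] at h6
    refine ⟨?_, ?_, ?_, ?_, ?_, ?_, ?_⟩ <;> linarith
  -- evaluation at three non-collinear points
  let ev : LinearMap.ker B.mulVecLin →ₗ[ℝ] (Fin 3 → ℝ) :=
    { toFun := fun y => ![y.1 0, y.1 1, y.1 2]
      map_add' := by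
        intro y z
        ext i
        fin_cases i <;> simp
      map_smul' := by
        intro r y
        ext i
        fin_cases i <;> simp }
  have hinj : Function.Injective ev := by
    rw [← LinearMap.ker_eq_bot, LinearMap.ker_eq_bot']
    intro y hy
    have e0 : y.1 0 = 0 := congrFun hy 0
    have e1 : y.1 1 = 0 := congrFun hy 1
    have e2 : y.1 2 = 0 := congrFun hy 2
    obtain ⟨r0, r1, r2, r3, r4, r5, r6⟩ := rel y.1 (LinearMap.mem_ker.1 y.2)
    rw [e0, e1] at r0
    rw [e1, e2] at r1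
    rw [e0, e2] at r6
    have e3 : y.1 3 = 0 := by
      have : B 0 3 * y.1 3 = 0 := by linarith
      exact (mul_eq_zero.1 this).resolve_left (hn 0 3 (by decide))
    have e4 : y.1 4 = 0 := by
      have : B 1 4 * y.1 4 = 0 := by linarith
      exact (mul_eq_zero.1 this).resolve_left (hn 1 4 (by decide))
    have e6 : y.1 6 = 0 := by
      have : B 6 6 * y.1 6 = 0 := by linarith
      exact (mul_eq_zero.1 this).resolve_left (hn 6 6 (by decide))
    rw [e2, e3] at r2
    have e5 : y.1 5 = 0 := by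
      have : B 2 5 * y.1 5 = 0 := by linarith
      exact (mul_eq_zero.1 this).resolve_left (hn 2 5 (by decide))
    apply Subtype.ext
    funext i
    fin_cases i
    · exact e0
    · exact e1
    · exact e2
    · exact e3
    · exact e4
    · exact e5
    · exact e6
  have hsurj : Function.Surjective ev := by
    have h1 : finrank ℝ (LinearMap.ker B.mulVecLin) = finrank ℝ (Fin 3 → ℝ) := by
      have h2 := LinearMap.finrank_le_finrank_of_injective hinj
      rw [finrank_pi, Fintype.card_fin] at h2 ⊢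
      omega
    exact (LinearMap.injective_iff_surjective_of_finrank_eq_finrank h1).1 hinj
  obtain ⟨u, hu⟩ := hsurj ![1, 0, 0]
  obtain ⟨v, hv⟩ := hsurj ![0, 1, 0]
  obtain ⟨w, hw⟩ := hsurj ![0, 0, 1]
  have u0 : u.1 0 = 1 := congrFun hu 0
  have u1 : u.1 1 = 0 := congrFun hu 1
  have u2 : u.1 2 = 0 := congrFun hu 2
  have v0 : v.1 0 = 0 := congrFun hv 0
  have v1 : v.1 1 = 1 := congrFun hv 1
  have v2 : v.1 2 = 0 := congrFun hv 2
  have w0 : w.1 0 = 0 := congrFun hw 0
  have w1 : w.1 1 = 0 := congrFun hw 1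
  have w2 : w.1 2 = 1 := congrFun hw 2
  obtain ⟨ru0, ru1, ru2, ru3, ru4, ru5, ru6⟩ := rel u.1 (LinearMap.mem_ker.1 u.2)
  obtain ⟨rv0, rv1, rv2, rv3, rv4, rv5, rv6⟩ := rel v.1 (LinearMap.mem_ker.1 v.2)
  obtain ⟨rw0, rw1, rw2, rw3, rw4, rw5, rw6⟩ := rel w.1 (LinearMap.mem_ker.1 w.2)
  rw [u0, u1] at ru0
  rw [u1, u2] at ru1
  rw [u2] at ru2
  rw [u0] at ru4
  rw [u1] at ru5
  rw [u0, u2] at ru6
  rw [v0, v1] at rv0
  rw [v1, v2] at rv1
  rw [v2] at rv2
  rw [v0] at rv4
  rw [v1] at rv5
  rw [v0, v2] at rv6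
  rw [w0, w1] at rw0
  rw [w1, w2] at rw1
  rw [w2] at rw2
  rw [w0] at rw4
  rw [w1] at rw5
  rw [w0, w2] at rw6
  have u4 : u.1 4 = 0 := by
    have : B 1 4 * u.1 4 = 0 := by linarith
    exact (mul_eq_zero.1 this).resolve_left (hn 1 4 (by decide))
  have v6 : v.1 6 = 0 := by
    have : B 6 6 * v.1 6 = 0 := by linarith
    exact (mul_eq_zero.1 this).resolve_left (hn 6 6 (by decide))
  have w3 : w.1 3 = 0 := by
    have : B 0 3 * w.1 3 = 0 := by linarith
    exact (mul_eq_zero.1 this).resolve_left (hn 0 3 (by decide))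
  rw [u4] at ru3 ru4
  rw [v6] at rv3 rv5
  rw [w3] at rw2 rw3
  have v3 : v.1 3 ≠ 0 := by
    intro h
    rw [h] at rv0
    exact hn 0 1 (by decide) (by linarith)
  have u6 : u.1 6 ≠ 0 := by
    intro h
    rw [h] at ru6
    exact hn 6 0 (by decide) (by linarith)
  have w4 : w.1 4 ≠ 0 := by
    intro h
    rw [h] at rw1
    exact hn 1 2 (by decide) (by linarith)
  have u5 : u.1 5 ≠ 0 := by
    intro h
    rw [h] at ru4
    exact hn 4 0 (by decide) (by linarith)
  have v5 : v.1 5 ≠ 0 := by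
    intro h
    rw [h] at rv5
    exact hn 5 1 (by decide) (by linarith)
  have w5 : w.1 5 ≠ 0 := by
    intro h
    rw [h] at rw2
    exact hn 2 2 (by decide) (by linarith)
  have b33 := hn 3 3 (by decide)
  have b34 := hn 3 4 (by decide)
  have b36 := hn 3 6 (by decide)
  have b44 := hn 4 4 (by decide)
  have b55 := hn 5 5 (by decide)
  have b23 := hn 2 3 (by decide)
  -- line 3
  have k1 : u.1 3 * v.1 4 * w.1 6 = - (u.1 6 * v.1 3 * w.1 4) := by
    have e1 : B 3 3 * u.1 3 = - (B 3 6 * u.1 6) := by linarith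
    have e2 : B 3 4 * v.1 4 = - (B 3 3 * v.1 3) := by linarith
    have e3 : B 3 6 * w.1 6 = - (B 3 4 * w.1 4) := by linarith
    have e4 : (B 3 3 * B 3 4 * B 3 6) * (u.1 3 * v.1 4 * w.1 6) =
        (B 3 3 * B 3 4 * B 3 6) * (- (u.1 6 * v.1 3 * w.1 4)) := by
      calc (B 3 3 * B 3 4 * B 3 6) * (u.1 3 * v.1 4 * w.1 6)
          = (B 3 3 * u.1 3) * (B 3 4 * v.1 4) * (B 3 6 * w.1 6) := by ring
        _ = (- (B 3 6 * u.1 6)) * (- (B 3 3 * v.1 3)) * (- (B 3 4 * w.1 4)) := by
            rw [e1, e2, e3]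
        _ = _ := by ring
    exact mul_left_cancel₀ (mul_ne_zero (mul_ne_zero b33 b34) b36) e4
  have k2 : v.1 4 * w.1 5 = w.1 4 * v.1 5 := by
    have e1 : B 4 4 * v.1 4 = - (B 4 5 * v.1 5) := by linarith
    have e2 : B 4 4 * w.1 4 = - (B 4 5 * w.1 5) := by linarith
    apply mul_left_cancel₀ b44
    calc B 4 4 * (v.1 4 * w.1 5) = (B 4 4 * v.1 4) * w.1 5 := by ring
      _ = (- (B 4 5 * w.1 5)) * v.1 5 := by rw [e1]; ring
      _ = (B 4 4 * w.1 4) * v.1 5 := by rw [e2]
      _ = _ := by ring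
  have k3 : u.1 5 * w.1 6 = w.1 5 * u.1 6 := by
    have e1 : B 5 5 * u.1 5 = - (B 5 6 * u.1 6) := by linarith
    have e2 : B 5 5 * w.1 5 = - (B 5 6 * w.1 6) := by linarith
    apply mul_left_cancel₀ b55
    calc B 5 5 * (u.1 5 * w.1 6) = (B 5 5 * u.1 5) * w.1 6 := by ring
      _ = (- (B 5 6 * w.1 6)) * u.1 6 := by rw [e1]; ring
      _ = (B 5 5 * w.1 5) * u.1 6 := by rw [e2]
      _ = _ := by ring
  have k4 : u.1 3 * v.1 5 = v.1 3 * u.1 5 := by
    have e1 : B 2 3 * u.1 3 = - (B 2 5 * u.1 5) := by linarith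
    have e2 : B 2 3 * v.1 3 = - (B 2 5 * v.1 5) := by linarith
    apply mul_left_cancel₀ b23
    calc B 2 3 * (u.1 3 * v.1 5) = (B 2 3 * u.1 3) * v.1 5 := by ring
      _ = (- (B 2 5 * v.1 5)) * u.1 5 := by rw [e1]; ring
      _ = (B 2 3 * v.1 3) * u.1 5 := by rw [e2]
      _ = _ := by ring
  have k5 : u.1 3 * v.1 4 * w.1 6 = u.1 6 * v.1 3 * w.1 4 := by
    have e : (w.1 5 * u.1 5 * v.1 5) * (u.1 3 * v.1 4 * w.1 6) =
        (w.1 5 * u.1 5 * v.1 5) * (u.1 6 * v.1 3 * w.1 4) := by
      calc (w.1 5 * u.1 5 * v.1 5) * (u.1 3 * v.1 4 * w.1 6)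
          = (v.1 4 * w.1 5) * (u.1 5 * w.1 6) * (u.1 3 * v.1 5) := by ring
        _ = (w.1 4 * v.1 5) * (w.1 5 * u.1 6) * (v.1 3 * u.1 5) := by rw [k2, k3, k4]
        _ = _ := by ring
    exact mul_left_cancel₀ (mul_ne_zero (mul_ne_zero w5 u5) v5) e
  have k6 : u.1 6 * v.1 3 * w.1 4 ≠ 0 := mul_ne_zero (mul_ne_zero u6 v3) w4
  apply k6
  linarith

/-! ### block matrices -/

theorem rank_block {n : ℕ} (B D : Matrix (Fin n) (Fin n) ℝ) :
    2 * B.rank ≤ (fromBlocks 0 B Bᵀ D).rank := by
  set M := fromBlocks (0 : Matrix (Fin n) (Fin n) ℝ) B Bᵀ D with hM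
  have r1 := LinearMap.finrank_range_add_finrank_ker B.mulVecLin
  have r2 := LinearMap.finrank_range_add_finrank_ker Bᵀ.mulVecLin
  have r3 := LinearMap.finrank_range_add_finrank_ker M.mulVecLin
  rw [finrank_pi] at r1 r2 r3
  have q1 : finrank ℝ (LinearMap.range B.mulVecLin) = B.rank := rfl
  have q2 : finrank ℝ (LinearMap.range Bᵀ.mulVecLin) = B.rank := by
    rw [← Matrix.rank_transpose B]; rfl
  have q3 : finrank ℝ (LinearMap.range M.mulVecLin) = M.rank := rfl
  rw [q1] at r1
  rw [q2] at r2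
  rw [q3] at r3
  have hker : ∀ z : Fin n ⊕ Fin n → ℝ, M.mulVecLin z = 0 →
      B *ᵥ (z ∘ Sum.inr) = 0 ∧ Bᵀ *ᵥ (z ∘ Sum.inl) + D *ᵥ (z ∘ Sum.inr) = 0 := by
    intro z hz
    rw [Matrix.mulVecLin_apply, hM, Matrix.fromBlocks_mulVec] at hz
    constructor
    · funext i
      have := congrFun hz (Sum.inl i)
      simpa using this
    · funext i
      have := congrFun hz (Sum.inr i)
      simpa using this
  -- projection of the kernel to the second block
  let P : LinearMap.ker M.mulVecLin →ₗ[ℝ] (Fin n → ℝ) :=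
    { toFun := fun z => z.1 ∘ Sum.inr
      map_add' := fun _ _ => rfl
      map_smul' := fun _ _ => rfl }
  have s1 := LinearMap.finrank_range_add_finrank_ker P
  have s2 : finrank ℝ (LinearMap.range P) ≤ finrank ℝ (LinearMap.ker B.mulVecLin) := by
    apply Submodule.finrank_mono
    rintro _ ⟨z, rfl⟩
    rw [LinearMap.mem_ker]
    exact (hker z.1 (LinearMap.mem_ker.1 z.2)).1
  let Q : LinearMap.ker P →ₗ[ℝ] LinearMap.ker Bᵀ.mulVecLin :=
    { toFun := fun z => ⟨z.1.1 ∘ Sum.inl, by
        rw [LinearMap.mem_ker]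
        have h1 := (hker z.1.1 (LinearMap.mem_ker.1 z.1.2)).2
        have h2 : z.1.1 ∘ Sum.inr = 0 := LinearMap.mem_ker.1 z.2
        rw [h2, Matrix.mulVec_zero, add_zero] at h1
        exact h1⟩
      map_add' := fun _ _ => rfl
      map_smul' := fun _ _ => rfl }
  have hQ : Function.Injective Q := by
    rw [injective_iff_map_eq_zero]
    intro z hz
    have h1 : z.1.1 ∘ Sum.inl = 0 := congrArg Subtype.val hz
    have h2 : z.1.1 ∘ Sum.inr = 0 := LinearMap.mem_ker.1 z.2
    apply Subtype.ext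
    apply Subtype.ext
    funext i
    rcases i with i | i
    · exact congrFun h1 i
    · exact congrFun h2 i
  have s3 := LinearMap.finrank_le_finrank_of_injective hQ
  have hc : Fintype.card (Fin n ⊕ Fin n) = Fintype.card (Fin n) + Fintype.card (Fin n) := by
    rw [Fintype.card_sum]
  omega

/-! ### every matrix of the graph has rank at least nine -/

theorem rank_ge_nine (A : Matrix W W ℝ) (hA : A ∈ MatricesOf G) : 9 ≤ A.rank := by
  obtain ⟨hsymm, hpat⟩ := hA
  by_contra hcon
  push Not at hcon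
  have hzero : ∀ i j, i ≠ j → ¬ G.Adj i j → A i j = 0 := by
    intro i j hij hadj
    by_contra hne
    exact hadj ((hpat i j hij).1 hne)
  have hdiag : ∀ l : Fin 7, ∃ c : Fin 9, A (Sum.inl (l, c)) (Sum.inl (l, c)) = 0 := by
    intro l
    by_contra hno
    push Not at hno
    have h1 : A.submatrix (fun c : Fin 9 => (Sum.inl (l, c) : W))
        (fun c : Fin 9 => (Sum.inl (l, c) : W)) =
        diagonal (fun c => A (Sum.inl (l, c)) (Sum.inl (l, c))) := by
      ext c d
      rw [submatrix_apply, diagonal_apply]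
      split_ifs with h
      · rw [h]
      · exact hzero _ _ (fun h' => h (congrArg Prod.snd (Sum.inl_injective h')))
          (not_adj_ll _ _)
    have h2 := rank_submatrix_le A (fun c : Fin 9 => (Sum.inl (l, c) : W))
      (fun c : Fin 9 => (Sum.inl (l, c) : W))
    rw [h1, rank_diagonal] at h2
    have h3 : Fintype.card {c : Fin 9 // A (Sum.inl (l, c)) (Sum.inl (l, c)) ≠ 0} = 9 := by
      rw [Fintype.card_subtype]
      rw [Finset.filter_true_of_mem (fun c _ => hno c), Finset.card_univ, Fintype.card_fin]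
    omega
  choose c hc using hdiag
  let B : Matrix (Fin 7) (Fin 7) ℝ := fun l p => A (Sum.inl (l, c l)) (Sum.inr p)
  let D : Matrix (Fin 7) (Fin 7) ℝ := fun p q => A (Sum.inr p) (Sum.inr q)
  let g : Fin 7 ⊕ Fin 7 → W := Sum.elim (fun l => Sum.inl (l, c l)) Sum.inr
  have hM : A.submatrix g g = fromBlocks 0 B Bᵀ D := by
    ext i j
    rcases i with i | i <;> rcases j with j | j
    · change A (Sum.inl (i, c i)) (Sum.inl (j, c j)) = 0
      by_cases hij : i = j
      · subst hij
        exact hc i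
      · exact hzero _ _ (fun h' => hij (congrArg Prod.fst (Sum.inl_injective h')))
          (not_adj_ll _ _)
    · rfl
    · change A (Sum.inr i) (Sum.inl (j, c j)) = A (Sum.inl (j, c j)) (Sum.inr i)
      exact (hsymm.apply _ _)
    · rfl
  have h1 := rank_submatrix_le A g g
  rw [hM] at h1
  have h2 := rank_block B D
  have h3 : 5 ≤ B.rank := by
    apply fano_rank
    intro l p
    exact hpat _ _ (by simp)
  omega

theorem nullity_le (A : Matrix W W ℝ) (hA : A ∈ MatricesOf G) :
    finrank ℝ (LinearMap.ker A.mulVecLin) ≤ 61 := by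
  have h1 := LinearMap.finrank_range_add_finrank_ker A.mulVecLin
  rw [finrank_pi, card_W] at h1
  have h2 : finrank ℝ (LinearMap.range A.mulVecLin) = A.rank := rfl
  have h3 := rank_ge_nine A hA
  omega

theorem maxNullity_le : maxNullity G ≤ 61 := by
  classical
  unfold maxNullity
  apply csSup_le
  · refine ⟨_, fun i j => if G.Adj i j then 1 else 0, ⟨?_, ?_⟩, rfl⟩
    · ext i j
      simp only [transpose_apply, G.adj_comm]
    · intro i j _
      simp
  · rintro k ⟨A, hA, rfl⟩
    exact nullity_le A hA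

theorem le_zeroForcing : 62 ≤ zeroForcingNumber G := by
  unfold zeroForcingNumber
  apply le_csInf
  · exact ⟨_, Finset.univ, fun v => Filled.init v (by simp), rfl⟩
  · rintro k ⟨B, hB, rfl⟩
    exact forcing_large B hB

/-- There is a connected bipartite graph with bipartition `X ∪ Y`, `|X| ≥ |Y|`, in which every
vertex of `X` has degree `3` and `M(G) < Z(G)`. -/
theorem result : ∃ (V : Type) (_ : Fintype V) (G : SimpleGraph V) (X Y : Set V),
    G.Connected ∧ IsCompl X Y ∧
    (∀ u v, G.Adj u v → (u ∈ X ∧ v ∈ Y) ∨ (u ∈ Y ∧ v ∈ X)) ∧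
    Y.ncard ≤ X.ncard ∧ (∀ x ∈ X, (G.neighborSet x).ncard = 3) ∧
    maxNullity G < zeroForcingNumber G := by
  refine ⟨W, inferInstance, G, Set.range Sum.inl, Set.range Sum.inr, connected,
    Set.isCompl_range_inl_range_inr, ?_, ?_, ?_, ?_⟩
  · rintro (x | p) (y | q) h
    · exact absurd h (not_adj_ll _ _)
    · exact Or.inl ⟨⟨x, rfl⟩, ⟨q, rfl⟩⟩
    · exact Or.inr ⟨⟨p, rfl⟩, ⟨y, rfl⟩⟩
    · exact absurd h (not_adj_rr _ _)
  · rw [← Set.image_univ, ← Set.image_univ, Set.ncard_image_of_injective _ Sum.inl_injective,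
      Set.ncard_image_of_injective _ Sum.inr_injective, Set.ncard_univ, Set.ncard_univ,
      Nat.card_eq_fintype_card, Nat.card_eq_fintype_card]
    simp
  · rintro _ ⟨x, rfl⟩
    have h1 : G.neighborSet (Sum.inl x) =
        Sum.inr '' (((Finset.univ.filter fun p => inc x.1 p = true) : Finset (Fin 7)) :
          Set (Fin 7)) := by
      ext v
      rcases v with y | p
      · simp [SimpleGraph.mem_neighborSet, not_adj_ll]
      · simp [SimpleGraph.mem_neighborSet, adj_lr]
    rw [h1, Set.ncard_image_of_injective _ Sum.inr_injective, Set.ncard_coe_finset]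
    have key : ∀ l : Fin 7, (Finset.univ.filter fun p => inc l p = true).card = 3 := by decide
    exact key x.1
  · have h1 := maxNullity_le
    have h2 := le_zeroForcing
    omega

end Pool.Agent.Results.MP_cfc379_co.FanoBlowUp
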